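import Pool.Agent.H63.BKH.KCL1

/-!
# Row KCL of the board `bkh_modules`: comparison of the heights of two functions on a curve
-/

set_option autoImplicit false

open MvPolynomial
open Pool.Agent.H12.ZD (pmap v O Res DenseOrbit NoInv)
open Pool.Agent.H18.HIT
open Pool.Agent.H8.ZA (HFam Const NA sz)
open Pool.Agent.H8.TD
open Pool.Agent.H18.TE

namespace Pool.Agent.H63.BKH

/-! ## Fields -/

section three

variable {k K : Type} [Field k] [Field K] [Algebra k K]

/-- abbreviation: the field with two more variables -/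
abbrev K3' (K : Type) [Field K] : Type := FractionRing (MvPolynomial (Fin 2) K)

/-- a constant -/
noncomputable def cc (x : K) : K3' K := algebraMap K (K3' K) x

/-- a variable -/
noncomputable def vv (K : Type) [Field K] (i : Fin 2) : K3' K :=
  algebraMap (MvPolynomial (Fin 2) K) (K3' K) (X i)

/-- the three coordinates of the second linear system -/
noncomputable def BB (u : K) : Fin 3 → K3' K := ![cc u, vv K 0, vv K 1]

theorem lc_BB (u : K) (t : Fin 3 → k) :
    lc t (BB u) = t 0 • cc u + t 1 • vv K 0 + t 2 • vv K 1 := by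
  rw [lc, Fin.sum_univ_three]
  rfl

theorem smul_mem' (E : IntermediateField k (K3' K)) (c : k) {x : K3' K} (hx : x ∈ E) :
    c • x ∈ E := E.smul_mem hx

/-- generation of the large field -/
theorem gen3 (u w : K) (hgen : IntermediateField.adjoin k ({u, w} : Set K) = ⊤)
    (E : IntermediateField k (K3' K)) (hu : cc u ∈ E) (hw : cc w ∈ E) (h0 : vv K 0 ∈ E)
    (h1 : vv K 1 ∈ E) : E = ⊤ := by
  let φ : K →ₐ[k] K3' K := IsScalarTower.toAlgHom k K (K3' K)
  have hc : ∀ x : K, cc x ∈ E := by
    intro x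
    have h2 : IntermediateField.adjoin k ({u, w} : Set K) ≤ E.comap φ := by
      rw [IntermediateField.adjoin_le_iff]
      intro z hz
      rcases hz with rfl | hz
      · exact hu
      · rw [Set.mem_singleton_iff] at hz
        subst hz
        exact hw
    rw [hgen] at h2
    exact h2 (IntermediateField.mem_top (x := x))
  have hp : ∀ p : MvPolynomial (Fin 2) K, algebraMap (MvPolynomial (Fin 2) K) (K3' K) p ∈ E := by
    intro p
    induction p using MvPolynomial.induction_on with
    | C a => exact hc a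
    | add p q hp hq =>
      rw [map_add]
      exact add_mem hp hq
    | mul_X p i hp =>
      rw [map_mul]
      refine mul_mem hp ?_
      fin_cases i
      · exact h0
      · exact h1
  rw [eq_top_iff]
  intro x _
  obtain ⟨p, q, hq, rfl⟩ := IsFractionRing.div_surjective (A := MvPolynomial (Fin 2) K) x
  exact div_mem (hp p) (hp q)

/-- two independent linear forms -/
theorem indep_le (u : K) (s t : Fin 3 → k) (hD : s 1 * t 2 - s 2 * t 1 ≠ 0) :
    dg k ({cc u, lc s (BB u), lc t (BB u)} : Set (K3' K)) =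
      dg k ({cc u, vv K 0, vv K 1} : Set (K3' K)) := by
  have h : IntermediateField.adjoin k ({cc u, lc s (BB u), lc t (BB u)} : Set (K3' K)) =
      IntermediateField.adjoin k ({cc u, vv K 0, vv K 1} : Set (K3' K)) := by
    apply le_antisymm
    · rw [IntermediateField.adjoin_le_iff]
      have a1 : cc u ∈ IntermediateField.adjoin k ({cc u, vv K 0, vv K 1} : Set (K3' K)) :=
        IntermediateField.subset_adjoin k _ (by simp)
      have a2 : vv K 0 ∈ IntermediateField.adjoin k ({cc u, vv K 0, vv K 1} : Set (K3' K)) :=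
        IntermediateField.subset_adjoin k _ (by simp)
      have a3 : vv K 1 ∈ IntermediateField.adjoin k ({cc u, vv K 0, vv K 1} : Set (K3' K)) :=
        IntermediateField.subset_adjoin k _ (by simp)
      rintro z (rfl | rfl | rfl)
      · exact a1
      · rw [lc_BB]
        exact add_mem (add_mem (smul_mem' _ _ a1) (smul_mem' _ _ a2)) (smul_mem' _ _ a3)
      · rw [lc_BB]
        exact add_mem (add_mem (smul_mem' _ _ a1) (smul_mem' _ _ a2)) (smul_mem' _ _ a3)
    · rw [IntermediateField.adjoin_le_iff]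
      set E := IntermediateField.adjoin k ({cc u, lc s (BB u), lc t (BB u)} : Set (K3' K))
      have a1 : cc u ∈ E := IntermediateField.subset_adjoin k _ (by simp)
      have a2 : lc s (BB u) ∈ E := IntermediateField.subset_adjoin k _ (by simp)
      have a3 : lc t (BB u) ∈ E := IntermediateField.subset_adjoin k _ (by simp)
      rw [lc_BB] at a2 a3
      have b2 : s 1 • vv K 0 + s 2 • vv K 1 ∈ E := by
        have := sub_mem a2 (smul_mem' E (s 0) a1)
        have e : s 0 • cc u + s 1 • vv K 0 + s 2 • vv K 1 - s 0 • cc u =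
          s 1 • vv K 0 + s 2 • vv K 1 := by ring
        rwa [e] at this
      have b3 : t 1 • vv K 0 + t 2 • vv K 1 ∈ E := by
        have := sub_mem a3 (smul_mem' E (t 0) a1)
        have e : t 0 • cc u + t 1 • vv K 0 + t 2 • vv K 1 - t 0 • cc u =
          t 1 • vv K 0 + t 2 • vv K 1 := by ring
        rwa [e] at this
      rintro z (rfl | rfl | rfl)
      · exact a1
      · have := smul_mem' E (s 1 * t 2 - s 2 * t 1)⁻¹
          (sub_mem (smul_mem' E (t 2) b2) (smul_mem' E (s 2) b3))
        have e : (s 1 * t 2 - s 2 * t 1)⁻¹ • (t 2 • (s 1 • vv K 0 + s 2 • vv K 1) -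
            s 2 • (t 1 • vv K 0 + t 2 • vv K 1)) = vv K 0 := by
          have e1 : t 2 • (s 1 • vv K 0 + s 2 • vv K 1) -
            s 2 • (t 1 • vv K 0 + t 2 • vv K 1) = (s 1 * t 2 - s 2 * t 1) • vv K 0 := by
            simp only [smul_add, smul_smul, sub_smul]
            rw [mul_comm (t 2) (s 1), mul_comm (t 2) (s 2)]
            abel
          rw [e1, smul_smul, inv_mul_cancel₀ hD, one_smul]
        rwa [e] at this
      · have := smul_mem' E (s 1 * t 2 - s 2 * t 1)⁻¹
          (sub_mem (smul_mem' E (s 1) b3) (smul_mem' E (t 1) b2))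
        have e : (s 1 * t 2 - s 2 * t 1)⁻¹ • (s 1 • (t 1 • vv K 0 + t 2 • vv K 1) -
            t 1 • (s 1 • vv K 0 + s 2 • vv K 1)) = vv K 1 := by
          have e1 : s 1 • (t 1 • vv K 0 + t 2 • vv K 1) -
            t 1 • (s 1 • vv K 0 + s 2 • vv K 1) = (s 1 * t 2 - s 2 * t 1) • vv K 1 := by
            simp only [smul_add, smul_smul, sub_smul]
            rw [mul_comm (t 1) (s 1), mul_comm (t 1) (s 2)]
            abel
          rw [e1, smul_smul, inv_mul_cancel₀ hD, one_smul]
        rwa [e] at this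
  rw [dg, h]
  rfl

/-- dependent linear forms -/
theorem dep_zero (htr : Algebra.trdeg k (K3' K) = 3) (u : K) (s t : Fin 3 → k)
    (hD : s 1 * t 2 - s 2 * t 1 = 0) :
    dg k ({cc u, lc s (BB u), lc t (BB u)} : Set (K3' K)) = 0 := by
  -- a common direction
  have hex : ∃ (α β a b : k), s 1 = a * α ∧ s 2 = a * β ∧ t 1 = b * α ∧ t 2 = b * β := by
    by_cases h : s 1 = 0 ∧ s 2 = 0
    · exact ⟨t 1, t 2, 0, 1, by simp [h.1], by simp [h.2], by simp, by simp⟩
    · by_cases h1 : s 1 = 0
      · have h2 : s 2 ≠ 0 := fun h2 => h ⟨h1, h2⟩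
        have h3 : t 1 = 0 := by
          rw [h1, zero_mul, zero_sub, neg_eq_zero] at hD
          exact (mul_eq_zero.1 hD).resolve_left h2
        exact ⟨0, 1, s 2, t 2, by simp [h1], by simp, by simp [h3], by simp⟩
      · refine ⟨s 1, s 2, 1, t 1 / s 1, by simp, by simp, ?_, ?_⟩
        · field_simp
        · field_simp
          linear_combination hD
  obtain ⟨α, β, a, b, h1, h2, h3, h4⟩ := hex
  set y : K3' K := α • vv K 0 + β • vv K 1 with hy
  set S := Algebra.adjoin k ({cc u, y} : Set (K3' K)) with hS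
  have m1 : cc u ∈ S := Algebra.subset_adjoin (by simp)
  have m2 : y ∈ S := Algebra.subset_adjoin (by simp)
  have e1 : lc s (BB u) = s 0 • cc u + a • y := by
    rw [lc_BB, h1, h2, hy, smul_add, smul_smul, smul_smul, add_assoc]
  have e2 : lc t (BB u) = t 0 • cc u + b • y := by
    rw [lc_BB, h3, h4, hy, smul_add, smul_smul, smul_smul, add_assoc]
  refine dg_zero _ _ _ (cc u) y htr ?_ ?_ ?_
  · exact isAlgebraic_algebraMap (⟨cc u, m1⟩ : S)
  · rw [e1]
    exact isAlgebraic_algebraMap (⟨s 0 • cc u + a • y,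
      S.add_mem (S.smul_mem m1 _) (S.smul_mem m2 _)⟩ : S)
  · rw [e2]
    exact isAlgebraic_algebraMap (⟨t 0 • cc u + b • y,
      S.add_mem (S.smul_mem m1 _) (S.smul_mem m2 _)⟩ : S)

/-- two functions on the curve and one linear form -/
theorem mix_zero (htr : Algebra.trdeg k (K3' K) = 3) (u w : K)
    (hw : IsAlgebraic (IntermediateField.adjoin k ({u} : Set K)) w) (s : Fin 3 → k) (c : k) :
    dg k ({cc u, lc s (BB u), c • cc w} : Set (K3' K)) = 0 := by
  set y : K3' K := lc s (BB u) with hy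
  set S := Algebra.adjoin k ({cc u, y} : Set (K3' K)) with hS
  have m1 : cc u ∈ S := Algebra.subset_adjoin (by simp)
  have m2 : y ∈ S := Algebra.subset_adjoin (by simp)
  refine dg_zero _ _ _ (cc u) y htr ?_ ?_ ?_
  · exact isAlgebraic_algebraMap (⟨cc u, m1⟩ : S)
  · exact isAlgebraic_algebraMap (⟨y, m2⟩ : S)
  · -- descend to the ring generated by `u`
    have h1 : IsAlgebraic (Algebra.adjoin k ({u} : Set K)) w := by
      open scoped IntermediateField.algebraAdjoinAdjoin in
      exact (IsFractionRing.isAlgebraic_iff (Algebra.adjoin k ({u} : Set K))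
        (IntermediateField.adjoin k ({u} : Set K)) K).2 hw
    let φ : K →ₐ[k] K3' K := IsScalarTower.toAlgHom k K (K3' K)
    have hmem : ∀ x ∈ Algebra.adjoin k ({u} : Set K), φ x ∈ S := by
      intro x hx
      have h2 : Algebra.adjoin k ({u} : Set K) ≤ S.comap φ := by
        refine Algebra.adjoin_le ?_
        intro z hz
        rw [Set.mem_singleton_iff] at hz
        subst hz
        exact m1
      exact h2 hx
    let f : Algebra.adjoin k ({u} : Set K) →+* S :=
      { toFun := fun x => ⟨φ x, hmem x x.2⟩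
        map_one' := Subtype.ext (map_one φ)
        map_mul' := fun x y => Subtype.ext (map_mul φ _ _)
        map_zero' := Subtype.ext (map_zero φ)
        map_add' := fun x y => Subtype.ext (map_add φ _ _) }
    have hf : Function.Injective f := by
      intro x y hxy
      have := congrArg Subtype.val hxy
      exact Subtype.ext (φ.toRingHom.injective this)
    have h3 : IsAlgebraic S (cc w) := by
      obtain ⟨p, hp, hpx⟩ := h1
      refine ⟨p.map f, (Polynomial.map_ne_zero_iff hf).mpr hp, ?_⟩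
      rw [Polynomial.aeval_def, Polynomial.eval₂_map]
      have e1 : (algebraMap S (K3' K)).comp f =
          φ.toRingHom.comp (algebraMap (Algebra.adjoin k ({u} : Set K)) K) := rfl
      have e2 : cc w = φ.toRingHom w := rfl
      rw [e1, e2, ← Polynomial.hom_eval₂]
      rw [Polynomial.aeval_def] at hpx
      rw [hpx, map_zero]
    have h4 : IsAlgebraic S (algebraMap k (K3' K) c) :=
      isAlgebraic_algebraMap (algebraMap k S c)
    rw [Algebra.smul_def]
    exact h4.mul h3

end three

/-! ## The inequality -/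

theorem lc_A3 {k M : Type} [Field k] [AddCommGroup M] [Module k M] (s : Fin 3 → k) (x : M) :
    lc s (![x, 0, 0] : Fin 3 → M) = s 0 • x := by
  rw [lc, Fin.sum_univ_three]
  simp

theorem ht_nonneg {K' : IntermediateField ℚ Qb} (F : HFam K') (x : Fin 3 → Qb) : 0 ≤ F.ht x :=
  finsum_nonneg fun _ => Real.log_nonneg (Pool.Agent.H8.ZA.one_le_sz _ _)

theorem core (hKIL : T_KIL) (hBCH : T_BCH) {R₁ K₁ : Type} [CommRing R₁] [IsDomain R₁] [Field K₁]
    [Algebra Qb R₁] [Algebra R₁ K₁] [Algebra Qb K₁] [IsScalarTower Qb R₁ K₁] (u ψ : R₁)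
    (hinj : Function.Injective (algebraMap R₁ K₁))
    (hgen : IntermediateField.adjoin Qb ({algebraMap R₁ K₁ u, algebraMap R₁ K₁ ψ} : Set K₁) = ⊤)
    (hu : FiniteDimensional (IntermediateField.adjoin Qb ({algebraMap R₁ K₁ u} : Set K₁)) K₁)
    (hψ : FiniteDimensional (IntermediateField.adjoin Qb ({algebraMap R₁ K₁ ψ} : Set K₁)) K₁)
    (htr : Algebra.trdeg Qb K₁ = 1) :
    ∃ (b : R₁) (μ : ℝ), b ≠ 0 ∧ ∀ (K' : IntermediateField ℚ Qb) (F : HFam K'), ∃ c : ℝ,
      ∀ ev : R₁ →ₐ[Qb] Qb, ev b ≠ 0 →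
        (dg Qb ({algebraMap R₁ K₁ ψ} : Set K₁) : ℝ) * F.ht ![ev u, 0, 0] + μ * lg F (ev b) ≤
          9 * dg Qb ({algebraMap R₁ K₁ u} : Set K₁) * F.ht ![ev ψ, 0, 0] +
            9 * F.ht ![ev u, 0, 0] + c := by
  set u' : K₁ := algebraMap R₁ K₁ u with hu'
  set ψ' : K₁ := algebraMap R₁ K₁ ψ with hψ'
  let alg : Algebra (MvPolynomial (Fin 2) R₁) (K3' K₁) :=
    ((algebraMap (MvPolynomial (Fin 2) K₁) (K3' K₁)).comp
      (MvPolynomial.map (algebraMap R₁ K₁))).toAlgebra
  have hmap : ∀ p, algebraMap (MvPolynomial (Fin 2) R₁) (K3' K₁) p =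
      algebraMap (MvPolynomial (Fin 2) K₁) (K3' K₁) (MvPolynomial.map (algebraMap R₁ K₁) p) :=
    fun _ => rfl
  have hC : ∀ r : R₁, algebraMap (MvPolynomial (Fin 2) R₁) (K3' K₁) (C r) =
      cc (algebraMap R₁ K₁ r) := by
    intro r
    rw [hmap, MvPolynomial.map_C]
    rfl
  have hX : ∀ i, algebraMap (MvPolynomial (Fin 2) R₁) (K3' K₁) (X i) = vv K₁ i := by
    intro i
    rw [hmap, MvPolynomial.map_X]
    rfl
  have hst : IsScalarTower Qb (MvPolynomial (Fin 2) R₁) (K3' K₁) := by
    refine IsScalarTower.of_algebraMap_eq fun x => ?_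
    have h1 : algebraMap Qb (MvPolynomial (Fin 2) R₁) x = C (algebraMap Qb R₁ x) := rfl
    rw [h1, hC, ← IsScalarTower.algebraMap_apply Qb R₁ K₁]
    exact IsScalarTower.algebraMap_apply Qb K₁ (K3' K₁) x
  have hinj3 : Function.Injective (algebraMap (MvPolynomial (Fin 2) R₁) (K3' K₁)) :=
    (IsFractionRing.injective (MvPolynomial (Fin 2) K₁) (K3' K₁)).comp
      (MvPolynomial.map_injective _ hinj)
  have htr3 : Algebra.trdeg Qb (K3' K₁) = 3 := trdeg_frac htr
  let A : Fin 3 → MvPolynomial (Fin 2) R₁ := ![C ψ, 0, 0]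
  let B : Fin 3 → MvPolynomial (Fin 2) R₁ := ![C u, X 0, X 1]
  have hB : (fun i => algebraMap (MvPolynomial (Fin 2) R₁) (K3' K₁) (B i)) = BB u' := by
    funext i
    fin_cases i
    · exact hC u
    · exact hX 0
    · exact hX 1
  have hA : (fun i => algebraMap (MvPolynomial (Fin 2) R₁) (K3' K₁) (A i)) =
      ![cc ψ', 0, 0] := by
    funext i
    fin_cases i
    · exact hC ψ
    · exact map_zero _
    · exact map_zero _
  have hg : algebraMap (MvPolynomial (Fin 2) R₁) (K3' K₁) (C u) = cc u' := hC u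
  have l1 : lc (![0, 1, 0] : Fin 3 → Qb) (BB u') = vv K₁ 0 := by
    rw [lc_BB]; simp
  have l2 : lc (![0, 0, 1] : Fin 3 → Qb) (BB u') = vv K₁ 1 := by
    rw [lc_BB]; simp
  have l3 : lc (![1, 0, 0] : Fin 3 → Qb) (![cc ψ', 0, 0] : Fin 3 → K3' K₁) = cc ψ' := by
    rw [lc_A3]; simp
  have bu : dg Qb ({cc u', vv K₁ 0, vv K₁ 1} : Set (K3' K₁)) = dg Qb ({u'} : Set K₁) :=
    hBCH Qb K₁ u' hu
  have bψ : dg Qb ({cc ψ', vv K₁ 0, vv K₁ 1} : Set (K3' K₁)) = dg Qb ({ψ'} : Set K₁) :=
    hBCH Qb K₁ ψ' hψ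
  have pu : 1 ≤ dg Qb ({u'} : Set K₁) := Module.finrank_pos
  have pψ : 1 ≤ dg Qb ({ψ'} : Set K₁) := Module.finrank_pos
  obtain ⟨b, μ, hb, hall⟩ := hKIL (MvPolynomial (Fin 2) R₁) (K3' K₁) A B (C u)
    (dg Qb ({ψ'} : Set K₁)) (dg Qb ({u'} : Set K₁)) 1 ![1, 0, 0] ![0, 1, 0] ![0, 0, 1] hinj3 htr3
    (by
      rw [hA, hB]
      refine gen3 u' ψ' hgen _ ?_ ?_ ?_ ?_
      · exact IntermediateField.subset_adjoin _ _ (Or.inr ⟨0, rfl⟩)
      · exact IntermediateField.subset_adjoin _ _ (Or.inl ⟨0, rfl⟩)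
      · exact IntermediateField.subset_adjoin _ _ (Or.inr ⟨1, rfl⟩)
      · exact IntermediateField.subset_adjoin _ _ (Or.inr ⟨2, rfl⟩))
    pψ le_rfl
    (by rw [hA, hB, l1, l2, l3, bψ])
    (by
      intro s t
      rw [hB, hg]
      by_cases hD : s 1 * t 2 - s 2 * t 1 = 0
      · rw [dep_zero htr3 u' s t hD]
        exact Nat.zero_le _
      · rw [indep_le u' s t hD, bu])
    (by
      intro s t
      rw [hA, hB, hg, lc_A3, mix_zero htr3 u' ψ' (Algebra.IsAlgebraic.isAlgebraic _) s (t 0)]
      exact Nat.zero_le _)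
    (by
      refine ⟨![0, 1, 0], ![0, 0, 1], ?_⟩
      rw [hB, hg, l1, l2, bu]
      exact pu)
  -- specialisation of the variables
  have hchar : CharZero R₁ := charZero_of_injective_algebraMap (algebraMap Qb R₁).injective
  have hex : ∃ n : Fin 2 → ℕ, eval (fun i => (n i : R₁)) b ≠ 0 := by
    by_contra hno
    push Not at hno
    apply hb
    refine MvPolynomial.funext_set (fun _ => Set.range (fun n : ℕ => (n : R₁)))
      (fun _ => Set.infinite_range_of_injective Nat.cast_injective) fun x hx => ?_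
    have h1 : ∀ i, ∃ n : ℕ, (n : R₁) = x i := fun i => hx i (Set.mem_univ i)
    choose n hn using h1
    have h2 : x = fun i => (n i : R₁) := funext fun i => (hn i).symm
    rw [h2, hno n, map_zero]
  obtain ⟨n, hn⟩ := hex
  refine ⟨eval (fun i => (n i : R₁)) b, μ, hn, fun K' F => ?_⟩
  obtain ⟨c, hc⟩ := hall K' F
  refine ⟨9 * (F.ht ![(n 0 : Qb), 0, 0] + F.ht ![(n 1 : Qb), 0, 0]) + c, fun ev hev => ?_⟩
  let ev3 : MvPolynomial (Fin 2) R₁ →ₐ[Qb] Qb :=
    ev.comp ((MvPolynomial.aeval (fun i => (n i : R₁)) :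
      MvPolynomial (Fin 2) R₁ →ₐ[R₁] R₁).restrictScalars Qb)
  have e1 : ∀ p, ev3 p = ev (eval (fun i => (n i : R₁)) p) := by
    intro p
    rfl
  have e2 : ∀ r, ev3 (C r) = ev r := fun r => by rw [e1, eval_C]
  have e3 : ∀ i, ev3 (X i) = (n i : Qb) := fun i => by rw [e1, eval_X, map_natCast]
  have h1 := hc ev3 (by rw [e1]; exact hev)
  have eA : (fun i => ev3 (A i)) = ![ev ψ, 0, 0] := by
    funext i
    fin_cases i
    · exact e2 ψ
    · exact map_zero _
    · exact map_zero _
  have eB : (fun i => ev3 (B i)) = ![ev u, (n 0 : Qb), (n 1 : Qb)] := by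
    funext i
    fin_cases i
    · exact e2 u
    · exact e3 0
    · exact e3 1
  rw [eA, eB, e2, e1] at h1
  have h2 := ht_le_sum F ![ev u, (n 0 : Qb), (n 1 : Qb)]
  have h3 : F.ht ![ev u, (n 0 : Qb), (n 1 : Qb)] ≤ F.ht ![ev u, 0, 0] +
      F.ht ![(n 0 : Qb), 0, 0] + F.ht ![(n 1 : Qb), 0, 0] := h2
  rw [Nat.cast_one] at h1
  linarith

/-! ## Towers -/

theorem tower {k K : Type} [Field k] [Field K] [Algebra k K] (E : IntermediateField k K) (x : E) :
    dg k ({x} : Set E) * Module.finrank E K = dg k ({(x : K)} : Set K) := by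
  have h1 : (IntermediateField.adjoin k ({(x : K)} : Set K)) =
      (IntermediateField.adjoin k ({x} : Set E)).map E.val := by
    rw [IntermediateField.adjoin_map, Set.image_singleton]
    rfl
  have h2 : IntermediateField.adjoin k ({(x : K)} : Set K) ≤ E := by
    rw [IntermediateField.adjoin_le_iff, Set.singleton_subset_iff]
    exact x.2
  have h3 := IntermediateField.finrank_comap (IntermediateField.adjoin k ({(x : K)} : Set K)) E.val
  rw [IntermediateField.fieldRange_val, h1, IntermediateField.comap_map] at h3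
  have h4 := IntermediateField.relfinrank_mul_finrank_top h2
  rw [h1] at h4
  unfold dg
  rw [h3, h1]
  exact h4

theorem pf_KCL (hKIL : T_KIL) (hBCH : T_BCH) : T_KCL := by
  intro R K _ _ _ _ _ _ _ u ψ hinj hy hu hψ
  obtain ⟨y, hy⟩ := hy
  have hu2 : Transcendental Qb (algebraMap R K u) := (transcendental_algebraMap_iff hinj).2 hu
  have hψ2 : Transcendental Qb (algebraMap R K ψ) := (transcendental_algebraMap_iff hinj).2 hψ
  obtain ⟨fu, -⟩ := fd_of_transc y hy _ hu2
  obtain ⟨fψ, -⟩ := fd_of_transc y hy _ hψ2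
  let E : IntermediateField Qb K :=
    IntermediateField.adjoin Qb ({algebraMap R K u, algebraMap R K ψ} : Set K)
  let S : Subalgebra Qb R := Algebra.adjoin Qb ({u, ψ} : Set R)
  have hmem : ∀ x ∈ S, algebraMap R K x ∈ E := by
    intro x hx
    have h2 : S ≤ E.toSubalgebra.comap (IsScalarTower.toAlgHom Qb R K) := by
      refine Algebra.adjoin_le ?_
      rintro z (rfl | rfl)
      · exact IntermediateField.subset_adjoin Qb _ (by simp)
      · exact IntermediateField.subset_adjoin Qb _ (by simp)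
    exact h2 hx
  let f : S →ₐ[Qb] E :=
    { toFun := fun x => ⟨algebraMap R K x, hmem x x.2⟩
      map_one' := Subtype.ext (map_one _)
      map_mul' := fun x y => Subtype.ext (map_mul _ _ _)
      map_zero' := Subtype.ext (map_zero _)
      map_add' := fun x y => Subtype.ext (map_add _ _ _)
      commutes' := fun r => Subtype.ext (IsScalarTower.algebraMap_apply Qb R K r).symm }
  let _ : Algebra S E := f.toRingHom.toAlgebra
  have hst : IsScalarTower Qb S E := IsScalarTower.of_algebraMap_eq fun x => (f.commutes x).symm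
  let u₁ : S := ⟨u, Algebra.subset_adjoin (by simp)⟩
  let ψ₁ : S := ⟨ψ, Algebra.subset_adjoin (by simp)⟩
  have hval : ∀ x : S, ((algebraMap S E x : E) : K) = algebraMap R K x := fun _ => rfl
  have hinj1 : Function.Injective (algebraMap S E) := by
    intro x y hxy
    have h1 : ((algebraMap S E x : E) : K) = ((algebraMap S E y : E) : K) := by rw [hxy]
    rw [hval, hval] at h1
    exact Subtype.ext (hinj h1)
  have hgen : IntermediateField.adjoin Qb ({algebraMap S E u₁, algebraMap S E ψ₁} : Set E) = ⊤ := by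
    rw [eq_top_iff]
    intro x _
    have h1 : E ≤ (IntermediateField.adjoin Qb
        ({algebraMap S E u₁, algebraMap S E ψ₁} : Set E)).map E.val := by
      change IntermediateField.adjoin Qb ({algebraMap R K u, algebraMap R K ψ} : Set K) ≤ _
      rw [IntermediateField.adjoin_map, Set.image_pair]
      exact le_rfl
    obtain ⟨z, hz, hzx⟩ := h1 x.2
    have : z = x := Subtype.ext hzx
    rw [← this]
    exact hz
  have tu := tower E (algebraMap S E u₁)
  have tψ := tower E (algebraMap S E ψ₁)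
  rw [hval] at tu tψ
  have pu : 0 < dg Qb ({algebraMap R K u} : Set K) := Module.finrank_pos
  have pψ : 0 < dg Qb ({algebraMap R K ψ} : Set K) := Module.finrank_pos
  have pu1 : 0 < dg Qb ({algebraMap S E u₁} : Set E) := by
    refine Nat.pos_of_ne_zero fun h => ?_
    rw [h, zero_mul] at tu
    exact pu.ne tu
  have pψ1 : 0 < dg Qb ({algebraMap S E ψ₁} : Set E) := by
    refine Nat.pos_of_ne_zero fun h => ?_
    rw [h, zero_mul] at tψ
    exact pψ.ne tψ
  have fu1 : FiniteDimensional (IntermediateField.adjoin Qb ({algebraMap S E u₁} : Set E)) E :=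
    FiniteDimensional.of_finrank_pos pu1
  have fψ1 : FiniteDimensional (IntermediateField.adjoin Qb ({algebraMap S E ψ₁} : Set E)) E :=
    FiniteDimensional.of_finrank_pos pψ1
  have tru1 : Transcendental Qb (algebraMap S E u₁) := by
    refine (transcendental_algebraMap_iff (S := E) (A := K) (algebraMap E K).injective).1 ?_
    exact hu2
  have htr := (fd_of_transc _ fu1 _ tru1).2
  obtain ⟨b, μ, hb, hall⟩ := core hKIL hBCH u₁ ψ₁ hinj1 hgen fu1 fψ1 htr
  refine ⟨b, Module.finrank E K * μ, b.2, fun h => hb (Subtype.ext h), fun K' F => ?_⟩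
  obtain ⟨c, hc⟩ := hall K' F
  refine ⟨Module.finrank E K * c, fun ev hev => ?_⟩
  have h1 := hc (ev.comp S.val) hev
  have e1 : (ev.comp S.val) u₁ = ev u := rfl
  have e2 : (ev.comp S.val) ψ₁ = ev ψ := rfl
  have e3 : (ev.comp S.val) b = ev b := rfl
  rw [e1, e2, e3] at h1
  have hh := ht_nonneg F ![ev u, 0, 0]
  have tu' : (dg Qb ({algebraMap S E u₁} : Set E) : ℝ) * Module.finrank E K =
      dg Qb ({algebraMap R K u} : Set K) := by exact_mod_cast tu
  have tψ' : (dg Qb ({algebraMap S E ψ₁} : Set E) : ℝ) * Module.finrank E K =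
      dg Qb ({algebraMap R K ψ} : Set K) := by exact_mod_cast tψ
  have hd0 : (0 : ℝ) ≤ Module.finrank E K := Nat.cast_nonneg _
  have pu1' : (1 : ℝ) ≤ dg Qb ({algebraMap S E u₁} : Set E) := by exact_mod_cast pu1
  have h2 := mul_le_mul_of_nonneg_left h1 hd0
  rw [← tu', ← tψ']
  have h3 : (Module.finrank E K : ℝ) * F.ht ![ev u, 0, 0] ≤
      (dg Qb ({algebraMap S E u₁} : Set E) : ℝ) * Module.finrank E K * F.ht ![ev u, 0, 0] := by
    have := mul_le_mul_of_nonneg_right pu1' (mul_nonneg hd0 hh)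
    linarith
  linarith

end Pool.Agent.H63.BKH
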