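import Pool.Agent.H18.TE.Targets
import Pool.Agent.H8.TD.Basic
import Pool.Agent.H14.TD.EXT

/-!
# Row KCL of the board `bkh_modules`: comparison of the heights of two functions on a curve,
lemmas on fields
-/

set_option autoImplicit false

open MvPolynomial
open Pool.Agent.H12.ZD (pmap v O Res DenseOrbit NoInv)
open Pool.Agent.H18.HIT
open Pool.Agent.H8.ZA (HFam Const NA sz)
open Pool.Agent.H8.TD
open Pool.Agent.H18.TE

namespace Pool.Agent.H63.BKH

section fields

variable {k K : Type} [Field k] [Field K] [Algebra k K]

open scoped IntermediateField.algebraAdjoinAdjoin in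
/-- a function field of one variable is finite over every non-constant function -/
theorem fd_of_transc (y : K) (hy : FiniteDimensional (IntermediateField.adjoin k {y}) K) (u : K)
    (hu : Transcendental k u) :
    FiniteDimensional (IntermediateField.adjoin k {u}) K ∧ Algebra.trdeg k K = 1 := by
  have h1 : Algebra.IsAlgebraic (IntermediateField.adjoin k ({y} : Set K)) K := inferInstance
  have h2 : Algebra.IsAlgebraic (Algebra.adjoin k ({y} : Set K)) K :=
    (IsFractionRing.comap_isAlgebraic_iff (A := Algebra.adjoin k ({y} : Set K))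
      (K := IntermediateField.adjoin k ({y} : Set K)) (C := K)).2 h1
  have h3 := Algebra.IsAlgebraic.trdeg_le_cardinalMk k ({y} : Set K)
  rw [Cardinal.mk_singleton] at h3
  have h4 : AlgebraicIndependent k (fun _ : Unit => u) :=
    algebraicIndependent_unique_type_iff.2 hu
  have h5 : IsTranscendenceBasis k (fun _ : Unit => u) :=
    h4.isTranscendenceBasis_of_trdeg_le_of_finite (by rw [Cardinal.mk_unit]; exact h3)
  have h6 : Algebra.trdeg k K = 1 := by
    have := h5.cardinalMk_eq_trdeg
    rw [Cardinal.mk_unit] at this
    exact this.symm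
  refine ⟨?_, h6⟩
  have h7 := h5.isAlgebraic
  rw [Set.range_const] at h7
  have h8 : Algebra.IsAlgebraic (IntermediateField.adjoin k ({u} : Set K)) K :=
    (IsFractionRing.comap_isAlgebraic_iff (A := Algebra.adjoin k ({u} : Set K))
      (K := IntermediateField.adjoin k ({u} : Set K)) (C := K)).1 h7
  -- a finite set of generators
  obtain ⟨B, hB⟩ := hy.fg_top
  let S : Set K := insert y (B : Set K)
  have hS : S.Finite := (B.finite_toSet).insert y
  have : Finite S := hS
  let E := IntermediateField.adjoin k ({u} : Set K)
  have htop : IntermediateField.adjoin E S = ⊤ := by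
    rw [eq_top_iff]
    intro x _
    have h1 : x ∈ Submodule.span (IntermediateField.adjoin k {y}) (B : Set K) := by
      rw [hB]; trivial
    have h2 : ∀ z ∈ IntermediateField.adjoin k ({y} : Set K), z ∈ IntermediateField.adjoin E S := by
      intro z hz
      have h3 : IntermediateField.adjoin k ({y} : Set K) ≤
          (IntermediateField.adjoin E S).restrictScalars k := by
        rw [IntermediateField.adjoin_le_iff]
        intro w hw
        rw [Set.mem_singleton_iff] at hw
        subst hw
        exact IntermediateField.subset_adjoin E S (Set.mem_insert _ _)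
      exact h3 hz
    refine Submodule.span_induction (p := fun x _ =>
      x ∈ IntermediateField.adjoin E S) ?_ ?_ ?_ ?_ h1
    · intro b hb
      exact IntermediateField.subset_adjoin E S (Set.mem_insert_of_mem _ hb)
    · exact zero_mem _
    · intro a b _ _ ha hb
      exact add_mem ha hb
    · intro a b _ hb
      rw [Algebra.smul_def]
      exact mul_mem (h2 a a.2) hb
  have hfd : FiniteDimensional E (IntermediateField.adjoin E S) :=
    IntermediateField.finiteDimensional_adjoin
      (fun x _ => (Algebra.IsAlgebraic.isAlgebraic (R := E) x).isIntegral)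
  rw [htop] at hfd
  exact Module.Finite.equiv (IntermediateField.topEquiv (F := E) (E := K)).toLinearEquiv

/-- the degree over a field of transcendence degree two -/
theorem dg_zero (a b c x y : K) (htr : Algebra.trdeg k K = 3)
    (ha : IsAlgebraic (Algebra.adjoin k ({x, y} : Set K)) a)
    (hb : IsAlgebraic (Algebra.adjoin k ({x, y} : Set K)) b)
    (hc : IsAlgebraic (Algebra.adjoin k ({x, y} : Set K)) c) :
    dg k ({a, b, c} : Set K) = 0 := by
  by_contra h
  have h : 1 ≤ dg k ({a, b, c} : Set K) := Nat.one_le_iff_ne_zero.2 h
  have hfd : FiniteDimensional (IntermediateField.adjoin k ({a, b, c} : Set K)) K :=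
    FiniteDimensional.of_finrank_pos h
  have hr : Set.range ![a, b, c] = ({a, b, c} : Set K) := by
    ext z
    simp only [Set.mem_range, Set.mem_insert_iff, Set.mem_singleton_iff]
    constructor
    · rintro ⟨i, rfl⟩
      fin_cases i <;> simp
    · rintro (rfl | rfl | rfl)
      · exact ⟨0, rfl⟩
      · exact ⟨1, rfl⟩
      · exact ⟨2, rfl⟩
  have halg : Algebra.IsAlgebraic (IntermediateField.adjoin k (Set.range ![a, b, c])) K := by
    rw [hr]
    exact Algebra.IsAlgebraic.of_finite _ _
  have h1 := Pool.Agent.H14.TD.alg_trans ({x, y} : Set K) ![a, b, c] halg (fun i => by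
    fin_cases i
    · exact ha
    · exact hb
    · exact hc)
  have h2 := Algebra.IsAlgebraic.trdeg_le_cardinalMk k ({x, y} : Set K)
  have h3 := h2.trans Cardinal.mk_insert_le
  rw [htr, Cardinal.mk_singleton] at h3
  have h4 : ((3 : ℕ) : Cardinal) ≤ ((2 : ℕ) : Cardinal) := by
    push_cast
    calc (3 : Cardinal) ≤ 1 + 1 := h3
      _ = 2 := one_add_one_eq_two
  have h5 : (3 : ℕ) ≤ 2 := by exact_mod_cast h4
  omega

/-- transcendence degree after adding two variables -/
theorem trdeg_frac (h : Algebra.trdeg k K = 1) :
    Algebra.trdeg k (FractionRing (MvPolynomial (Fin 2) K)) = 3 := by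
  have i1 : FaithfulSMul k K :=
    (faithfulSMul_iff_algebraMap_injective k K).2 (algebraMap k K).injective
  have i2 : FaithfulSMul K (FractionRing (MvPolynomial (Fin 2) K)) :=
    (faithfulSMul_iff_algebraMap_injective _ _).2 (algebraMap K _).injective
  have i3 : FaithfulSMul K (MvPolynomial (Fin 2) K) :=
    (faithfulSMul_iff_algebraMap_injective _ _).2 (MvPolynomial.C_injective _ _)
  have i4 : FaithfulSMul (MvPolynomial (Fin 2) K) (FractionRing (MvPolynomial (Fin 2) K)) :=
    (faithfulSMul_iff_algebraMap_injective _ _).2 (IsFractionRing.injective _ _)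
  have h1 := _root_.trdeg_add_eq k K (A := FractionRing (MvPolynomial (Fin 2) K))
  have h2 := _root_.trdeg_add_eq K (MvPolynomial (Fin 2) K)
    (A := FractionRing (MvPolynomial (Fin 2) K))
  have h3 : Algebra.trdeg (MvPolynomial (Fin 2) K) (FractionRing (MvPolynomial (Fin 2) K)) = 0 :=
    have := IsLocalization.isAlgebraic (FractionRing (MvPolynomial (Fin 2) K))
      (nonZeroDivisors (MvPolynomial (Fin 2) K))
    _root_.trdeg_eq_zero
  have h4 : Algebra.trdeg K (MvPolynomial (Fin 2) K) = 2 := by
    rw [MvPolynomial.trdeg_of_isDomain]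
    simp
  rw [← h1, h, ← h2, h3, h4, add_zero]
  norm_num

end fields

end Pool.Agent.H63.BKH
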